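import Mathlib

/-!
# From an operator without invariant subspaces on a Hilbert space to the two negations
-/

set_option autoImplicit false

namespace Pool.Agent.P.MP_f981b0_an.ISP9

open scoped InnerProductSpace

/-- A Hilbert space is reflexive. -/
theorem refl_hilbert {H : Type} [NormedAddCommGroup H] [InnerProductSpace ℂ H]
    [CompleteSpace H] : Function.Surjective (NormedSpace.inclusionInDoubleDual ℂ H) := by
  intro Φ
  let ψ : H →L[ℂ] ℂ :=
    { toFun := fun x => star (Φ (InnerProductSpace.toDual ℂ H x))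
      map_add' := fun x y => by simp
      map_smul' := fun c x => by simp [map_smulₛₗ]
      cont := by fun_prop }
  refine ⟨(InnerProductSpace.toDual ℂ H).symm ψ, ?_⟩
  ext f
  obtain ⟨x, rfl⟩ := (InnerProductSpace.toDual ℂ H).surjective f
  have h : ⟪(InnerProductSpace.toDual ℂ H).symm ψ, x⟫_ℂ = ψ x :=
    InnerProductSpace.toDual_symm_apply
  have h2 : ψ x = star (Φ (InnerProductSpace.toDual ℂ H x)) := rfl
  rw [NormedSpace.dual_def, InnerProductSpace.toDual_apply_apply, ← inner_conj_symm, h, h2]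
  simp

/-- A normal operator on an infinite-dimensional Hilbert space has a non-trivial closed invariant
subspace. -/
theorem normal_inv {H : Type} [NormedAddCommGroup H] [InnerProductSpace ℂ H] [CompleteSpace H]
    (hH : ¬ FiniteDimensional ℂ H) (T : H →L[ℂ] H) (hT : IsStarNormal T) :
    ∃ M : Submodule ℂ H, IsClosed (M : Set H) ∧ M ≠ ⊥ ∧ M ≠ ⊤ ∧ ∀ x ∈ M, T x ∈ M := by
  by_cases hs : ∃ a ∈ spectrum ℂ T, ∃ b ∈ spectrum ℂ T, a ≠ b
  · obtain ⟨a, ha, b, hb, hab⟩ := hs
    have hd : 0 < ‖a - b‖ := norm_pos_iff.mpr (sub_ne_zero.mpr hab)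
    let f : ℂ → ℂ := fun z => ((max (‖z - b‖ - ‖z - a‖) 0 : ℝ) : ℂ)
    let g : ℂ → ℂ := fun z => ((max (‖z - a‖ - ‖z - b‖) 0 : ℝ) : ℂ)
    have hf : Continuous f := by fun_prop
    have hg : Continuous g := by fun_prop
    have hfg : ∀ z, f z * g z = 0 := fun z => by
      rcases le_total ‖z - b‖ ‖z - a‖ with h | h
      · have : max (‖z - b‖ - ‖z - a‖) 0 = 0 := max_eq_right (by linarith)
        simp [f, this]
      · have : max (‖z - a‖ - ‖z - b‖) 0 = 0 := max_eq_right (by linarith)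
        simp [g, this]
    have hmul : cfc f T * cfc g T = 0 := by
      rw [← cfc_mul f g T hf.continuousOn hg.continuousOn]
      have : (fun z => f z * g z) = fun _ => (0 : ℂ) := funext hfg
      rw [this, cfc_const_zero]
    have hne : ∀ (k : ℂ → ℂ), Continuous k → ∀ c ∈ spectrum ℂ T, k c ≠ 0 → cfc k T ≠ 0 := by
      intro k hk c hc hkc h0
      have h1 : cfc k T = cfc (fun _ : ℂ => (0 : ℂ)) T := by rw [h0, cfc_const_zero]
      exact hkc (eqOn_of_cfc_eq_cfc h1 hk.continuousOn continuousOn_const hT hc)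
    have hfa : f a ≠ 0 := by
      have : max (‖a - b‖ - ‖a - a‖) 0 = ‖a - b‖ := by simp
      simp only [f, this]
      exact_mod_cast hd.ne'
    have hgb : g b ≠ 0 := by
      have : max (‖b - a‖ - ‖b - b‖) 0 = ‖a - b‖ := by simp [norm_sub_rev b a]
      simp only [g, this]
      exact_mod_cast hd.ne'
    have hcomm : Commute (cfc f T) T := by
      have h := cfc_commute_cfc f (fun z : ℂ => z) T
      rwa [cfc_id' ℂ T hT] at h
    refine ⟨LinearMap.ker (cfc f T : H →L[ℂ] H).toLinearMap, (cfc f T).isClosed_ker, ?_, ?_, ?_⟩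
    · intro h0
      apply hne g hg b hb hgb
      ext x
      have hx : cfc g T x ∈ LinearMap.ker (cfc f T : H →L[ℂ] H).toLinearMap := by
        have := congrArg (fun A : H →L[ℂ] H => A x) hmul
        simpa using this
      rw [h0] at hx
      simpa using hx
    · intro h0
      apply hne f hf a ha hfa
      ext x
      have hx : x ∈ LinearMap.ker (cfc f T : H →L[ℂ] H).toLinearMap := by
        rw [h0]; trivial
      simpa using hx
    · intro x hx
      have hx' : cfc f T x = 0 := by simpa using hx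
      have := congrArg (fun A : H →L[ℂ] H => A x) hcomm.eq
      have h2 : cfc f T (T x) = 0 := by simpa [hx'] using this
      simpa using h2
  · push Not at hs
    have hnt : Nontrivial H := by
      by_contra h
      rw [not_nontrivial_iff_subsingleton] at h
      exact hH inferInstance
    obtain ⟨c, hc⟩ : ∃ c : ℂ, ∀ z ∈ spectrum ℂ T, z = c := by
      by_cases he : (spectrum ℂ T).Nonempty
      · obtain ⟨c, hc⟩ := he
        exact ⟨c, fun z hz => hs z hz c hc⟩
      · exact ⟨0, fun z hz => absurd ⟨z, hz⟩ he⟩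
    have hTc : T = algebraMap ℂ (H →L[ℂ] H) c := by
      rw [← cfc_const c T hT]
      conv_lhs => rw [← cfc_id' ℂ T hT]
      exact cfc_congr fun z hz => hc z hz
    obtain ⟨v, hv⟩ := exists_ne (0 : H)
    refine ⟨Submodule.span ℂ {v}, Submodule.closed_of_finiteDimensional _, ?_, ?_, ?_⟩
    · simpa using hv
    · intro h
      apply hH
      have : FiniteDimensional ℂ (⊤ : Submodule ℂ H) := h ▸ inferInstance
      exact Module.Finite.of_surjective (⊤ : Submodule ℂ H).subtype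
        fun x => ⟨⟨x, trivial⟩, rfl⟩
    · intro x hx
      rw [hTc]
      simpa [Algebra.algebraMap_eq_smul_one] using Submodule.smul_mem _ c hx

/-- The body of `S06772` from an operator with no non-trivial closed invariant subspace. -/
theorem not_reflexive_isp {H : Type} [NormedAddCommGroup H] [InnerProductSpace ℂ H]
    [CompleteSpace H] [TopologicalSpace.SeparableSpace H] (hH : ¬ FiniteDimensional ℂ H)
    (T : H →L[ℂ] H)
    (hT : ∀ M : Submodule ℂ H, IsClosed (M : Set H) → (∀ x ∈ M, T x ∈ M) → M = ⊥ ∨ M = ⊤) :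
    ¬ (∀ (E : Type) [NormedAddCommGroup E] [NormedSpace ℂ E] [CompleteSpace E]
      [TopologicalSpace.SeparableSpace E],
      ¬ FiniteDimensional ℂ E →
      Function.Surjective (NormedSpace.inclusionInDoubleDual ℂ E) →
      ∀ T : E →L[ℂ] E,
        ∃ M : Submodule ℂ E,
          IsClosed (M : Set E) ∧ M ≠ ⊥ ∧ M ≠ ⊤ ∧ ∀ x ∈ M, T x ∈ M) := by
  intro h
  obtain ⟨M, h1, h2, h3, h4⟩ := h H hH refl_hilbert T
  rcases hT M h1 h4 with h5 | h5
  · exact h2 h5
  · exact h3 h5

/-- The body of `S04580` from an operator with no non-trivial closed invariant subspace. -/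
theorem not_reductive {H : Type} [NormedAddCommGroup H] [InnerProductSpace ℂ H]
    [CompleteSpace H] (hH : ¬ FiniteDimensional ℂ H) (T : H →L[ℂ] H)
    (hT : ∀ M : Submodule ℂ H, IsClosed (M : Set H) → (∀ x ∈ M, T x ∈ M) → M = ⊥ ∨ M = ⊤) :
    ¬ (∀ (H : Type) [NormedAddCommGroup H] [InnerProductSpace ℂ H] [CompleteSpace H]
      (T : H →L[ℂ] H),
      (∀ K : Submodule ℂ H, IsClosed (K : Set H) → (∀ x ∈ K, T x ∈ K) →
          ∀ x ∈ K, ContinuousLinearMap.adjoint T x ∈ K) →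
      IsStarNormal T) := by
  intro h
  have hn : IsStarNormal T := h H T fun K hK hinv x hx => by
    rcases hT K hK hinv with h5 | h5
    · rw [h5] at hx ⊢
      rw [Submodule.mem_bot] at hx
      simp [hx]
    · rw [h5]; trivial
  obtain ⟨M, h1, h2, h3, h4⟩ := normal_inv hH T hn
  rcases hT M h1 h4 with h5 | h5
  · exact h2 h5
  · exact h3 h5

/-- Compression to the orthogonal complement of `ker Θ`: if no unit pair `ξ, η` with `Θ ξ ≠ 0`,
`η ⟂ ker Θ` has `⟪η, A^l ξ⟫ = 0` for all `l`, the compression has only trivial closed invariant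
subspaces. -/
theorem exists_noinv {K Y : Type} [NormedAddCommGroup K] [InnerProductSpace ℂ K] [CompleteSpace K]
    [NormedAddCommGroup Y] [NormedSpace ℂ Y] (Θ : K →L[ℂ] Y) (A : K →L[ℂ] K) (V : Y →L[ℂ] Y)
    (hΘ : ∀ v, Θ (A v) = V (Θ v))
    (h : ∀ ξ η : K, ‖ξ‖ = 1 → ‖η‖ = 1 → Θ ξ ≠ 0 → (∀ v, Θ v = 0 → ⟪η, v⟫_ℂ = 0) →
      (∀ l : ℕ, ⟪η, (A ^ l) ξ⟫_ℂ = 0) → False) :
    ∃ T : (LinearMap.ker Θ.toLinearMap)ᗮ →L[ℂ] (LinearMap.ker Θ.toLinearMap)ᗮ,
      ∀ M : Submodule ℂ (LinearMap.ker Θ.toLinearMap)ᗮ,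
        IsClosed (M : Set (LinearMap.ker Θ.toLinearMap)ᗮ) → (∀ x ∈ M, T x ∈ M) →
          M = ⊥ ∨ M = ⊤ := by
  set N := LinearMap.ker Θ.toLinearMap with hN
  have hNc : IsClosed (N : Set K) := Θ.isClosed_ker
  have : CompleteSpace N := hNc.completeSpace_coe
  let T : Nᗮ →L[ℂ] Nᗮ := Nᗮ.orthogonalProjectionOnto ∘L A ∘L Nᗮ.subtypeL
  refine ⟨T, fun M hM hinv => ?_⟩
  by_contra hcon
  push Not at hcon
  obtain ⟨hb, ht⟩ := hcon
  have : CompleteSpace M := hM.completeSpace_coe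
  obtain ⟨x, hxM, hx0⟩ := Submodule.exists_mem_ne_zero_of_ne_bot hb
  have ho : Mᗮ ≠ ⊥ := fun h0 => ht (Submodule.orthogonal_eq_bot_iff.mp h0)
  obtain ⟨y, hyM, hy0⟩ := Submodule.exists_mem_ne_zero_of_ne_bot ho
  have hxn : ‖x‖ ≠ 0 := norm_ne_zero_iff.mpr hx0
  have hyn : ‖y‖ ≠ 0 := norm_ne_zero_iff.mpr hy0
  have hmem : ∀ v : K, v ∈ N ↔ Θ v = 0 := fun v => by simp [hN]
  have hTpow : ∀ l : ℕ, (T ^ l) x ∈ M ∧ (A ^ l) (x : K) - ((T ^ l) x : Nᗮ) ∈ N := by
    intro l
    induction l with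
    | zero => simpa using hxM
    | succ l ih =>
      refine ⟨by rw [pow_succ']; exact hinv _ ih.1, ?_⟩
      have e1 : (A ^ (l + 1)) (x : K) = A ((A ^ l) (x : K)) := by rw [pow_succ']; rfl
      have e2 : (T ^ (l + 1)) x = T ((T ^ l) x) := by rw [pow_succ']; rfl
      have e3 : A ((A ^ l) (x : K) - ((T ^ l) x : Nᗮ)) ∈ N := by
        rw [hmem, hΘ, (hmem _).mp ih.2, map_zero]
      have e4 : A (((T ^ l) x : Nᗮ) : K) - (T ((T ^ l) x) : Nᗮ) ∈ N := by
        have := Nᗮ.sub_starProjection_mem_orthogonal (A (((T ^ l) x : Nᗮ) : K))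
        rw [Submodule.orthogonal_orthogonal] at this
        exact this
      have := N.add_mem e3 e4
      rw [map_sub] at this
      rw [e1, e2]
      simpa using this
  refine h (((‖x‖ : ℂ)⁻¹) • (x : K)) (((‖y‖ : ℂ)⁻¹) • (y : K)) ?_ ?_ ?_ ?_ ?_
  · rw [norm_smul, norm_inv, Complex.norm_real, norm_norm]
    exact inv_mul_cancel₀ hxn
  · rw [norm_smul, norm_inv, Complex.norm_real, norm_norm]
    exact inv_mul_cancel₀ hyn
  · rw [map_smul]
    refine smul_ne_zero (inv_ne_zero (by exact_mod_cast hxn)) fun h0 => hx0 ?_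
    have h1 : (x : K) ∈ N := (hmem _).mpr h0
    have h2 : ⟪(x : K), (x : K)⟫_ℂ = 0 := (Submodule.mem_orthogonal _ _).mp x.2 _ h1
    exact Subtype.ext (inner_self_eq_zero.mp h2)
  · intro v hv
    have := (Submodule.mem_orthogonal' _ _).mp y.2 v ((hmem v).mpr hv)
    rw [inner_smul_left, this, mul_zero]
  · intro l
    obtain ⟨h1, h2⟩ := hTpow l
    have a1 := (Submodule.mem_orthogonal' _ _).mp y.2 _ h2
    have a2 : ⟪(y : K), (((T ^ l) x : Nᗮ) : K)⟫_ℂ = 0 :=
      (Submodule.mem_orthogonal' _ _).mp hyM _ h1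
    rw [inner_sub_right, a2, sub_zero] at a1
    rw [map_smul, inner_smul_left, inner_smul_right, a1, mul_zero, mul_zero]

/-- The complement of `ker Θ` is infinite-dimensional as soon as the range of `Θ` is. -/
theorem not_finite_orth {K Y : Type} [NormedAddCommGroup K] [InnerProductSpace ℂ K]
    [CompleteSpace K] [NormedAddCommGroup Y] [NormedSpace ℂ Y] (Θ : K →L[ℂ] Y)
    (hinf : ¬ FiniteDimensional ℂ (LinearMap.range Θ.toLinearMap)) :
    ¬ FiniteDimensional ℂ (LinearMap.ker Θ.toLinearMap)ᗮ := by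
  intro hfin
  apply hinf
  set N := LinearMap.ker Θ.toLinearMap with hN
  have hNc : IsClosed (N : Set K) := Θ.isClosed_ker
  have : CompleteSpace N := hNc.completeSpace_coe
  refine Module.Finite.of_surjective (Θ.toLinearMap.rangeRestrict ∘ₗ Nᗮ.subtype) ?_
  rintro ⟨_, v, rfl⟩
  refine ⟨Nᗮ.orthogonalProjectionOnto v, Subtype.ext ?_⟩
  have := Nᗮ.sub_starProjection_mem_orthogonal v
  rw [Submodule.orthogonal_orthogonal] at this
  have h0 : Θ (v - Nᗮ.starProjection v) = 0 := this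
  rw [map_sub, sub_eq_zero] at h0
  exact h0.symm

/-- The end of the argument: both negations from the model `Θ A = V Θ`. -/
theorem both {K Y : Type} [NormedAddCommGroup K] [InnerProductSpace ℂ K] [CompleteSpace K]
    [TopologicalSpace.SeparableSpace K]
    [NormedAddCommGroup Y] [NormedSpace ℂ Y] (Θ : K →L[ℂ] Y) (A : K →L[ℂ] K) (V : Y →L[ℂ] Y)
    (hΘ : ∀ v, Θ (A v) = V (Θ v))
    (hinf : ¬ FiniteDimensional ℂ (LinearMap.range Θ.toLinearMap))
    (h : ∀ ξ η : K, ‖ξ‖ = 1 → ‖η‖ = 1 → Θ ξ ≠ 0 → (∀ v, Θ v = 0 → ⟪η, v⟫_ℂ = 0) →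
      (∀ l : ℕ, ⟪η, (A ^ l) ξ⟫_ℂ = 0) → False) :
    (¬ (∀ (E : Type) [NormedAddCommGroup E] [NormedSpace ℂ E] [CompleteSpace E]
      [TopologicalSpace.SeparableSpace E],
      ¬ FiniteDimensional ℂ E →
      Function.Surjective (NormedSpace.inclusionInDoubleDual ℂ E) →
      ∀ T : E →L[ℂ] E,
        ∃ M : Submodule ℂ E,
          IsClosed (M : Set E) ∧ M ≠ ⊥ ∧ M ≠ ⊤ ∧ ∀ x ∈ M, T x ∈ M)) ∧
    (¬ (∀ (H : Type) [NormedAddCommGroup H] [InnerProductSpace ℂ H] [CompleteSpace H]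
      (T : H →L[ℂ] H),
      (∀ K : Submodule ℂ H, IsClosed (K : Set H) → (∀ x ∈ K, T x ∈ K) →
          ∀ x ∈ K, ContinuousLinearMap.adjoint T x ∈ K) →
      IsStarNormal T)) := by
  obtain ⟨T, hT⟩ := exists_noinv Θ A V hΘ h
  have hH := not_finite_orth Θ hinf
  have : SecondCountableTopology K := UniformSpace.secondCountable_of_separable K
  exact ⟨not_reflexive_isp hH T hT, not_reductive hH T hT⟩

end Pool.Agent.P.MP_f981b0_an.ISP9
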