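import Pool.Agent.P.MP_f981b0_an.ISP9.Final
import Pool.Agent.P.MP_f981b0_an.IS.Glob

/-!
# The last step in the interface form
-/

set_option autoImplicit false

namespace Pool.Agent.P.MP_f981b0_an.ISP9

open Complex Set

/-- An operator with only trivial closed invariant subspaces lives on a separable space. -/
theorem separable_of_noinv {H : Type} [NormedAddCommGroup H] [NormedSpace ℂ H]
    (hH : ¬ FiniteDimensional ℂ H) (T : H →L[ℂ] H)
    (hT : ∀ M : Submodule ℂ H, IsClosed (M : Set H) → (∀ x ∈ M, T x ∈ M) → M = ⊥ ∨ M = ⊤) :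
    TopologicalSpace.SeparableSpace H := by
  have hnt : Nontrivial H := by
    by_contra h
    rw [not_nontrivial_iff_subsingleton] at h
    exact hH inferInstance
  obtain ⟨v, hv⟩ := exists_ne (0 : H)
  let S : Submodule ℂ H := Submodule.span ℂ (Set.range fun l : ℕ => (T ^ l) v)
  have hS : ∀ x ∈ S, T x ∈ S := by
    intro x hx
    refine Submodule.span_induction (p := fun x _ => T x ∈ S) ?_ ?_ ?_ ?_ hx
    · rintro _ ⟨l, rfl⟩
      refine Submodule.subset_span ⟨l + 1, ?_⟩
      show (T ^ (l + 1)) v = T ((T ^ l) v)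
      rw [pow_succ']; rfl
    · simp
    · intro a b _ _ ha hb
      rw [map_add]; exact S.add_mem ha hb
    · intro c a _ ha
      rw [map_smul]; exact S.smul_mem c ha
  have hcl : ∀ x ∈ S.topologicalClosure, T x ∈ S.topologicalClosure := fun x hx =>
    map_mem_closure T.continuous hx hS
  have hvS : v ∈ S.topologicalClosure :=
    S.le_topologicalClosure (Submodule.subset_span ⟨0, by simp⟩)
  rcases hT _ S.isClosed_topologicalClosure hcl with h | h
  · rw [h] at hvS
    exact absurd hvS (by simpa using hv)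
  · have h1 : TopologicalSpace.IsSeparable (S : Set H) :=
      (Set.countable_range _).isSeparable.span
    have h2 := h1.closure
    rw [← Submodule.topologicalClosure_coe, h] at h2
    exact TopologicalSpace.isSeparable_univ_iff.mp h2

end Pool.Agent.P.MP_f981b0_an.ISP9

namespace Pool.Agent.IS

open Pool.Agent.P.MP_f981b0_an

/-- The bodies of the two frozen statements. -/
theorem final (h : NoInv) :
    (¬ (∀ (E : Type) [NormedAddCommGroup E] [NormedSpace ℂ E] [CompleteSpace E]
      [TopologicalSpace.SeparableSpace E],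
      ¬ FiniteDimensional ℂ E →
      Function.Surjective (NormedSpace.inclusionInDoubleDual ℂ E) →
      ∀ T : E →L[ℂ] E,
        ∃ M : Submodule ℂ E,
          IsClosed (M : Set E) ∧ M ≠ ⊥ ∧ M ≠ ⊤ ∧ ∀ x ∈ M, T x ∈ M)) ∧
    (¬ (∀ (H : Type) [NormedAddCommGroup H] [InnerProductSpace ℂ H] [CompleteSpace H]
      (T : H →L[ℂ] H),
      (∀ K : Submodule ℂ H, IsClosed (K : Set H) → (∀ x ∈ K, T x ∈ K) →
          ∀ x ∈ K, ContinuousLinearMap.adjoint T x ∈ K) →
      IsStarNormal T)) := by
  obtain ⟨H, _, _, _, hH, T, hT⟩ := h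
  have := ISP9.separable_of_noinv hH T hT
  exact ⟨ISP9.not_reflexive_isp hH T hT, ISP9.not_reductive hH T hT⟩

end Pool.Agent.IS
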