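import Mathlib

/-!
# Propagation of smallness on a half disc (Blaschke factor of the right half plane)
-/

set_option autoImplicit false

namespace Pool.Agent.P.MP_f981b0_an.ISP9

open Complex Set

/-- Maximum principle for a closed set `S` containing an open bounded `U`: a bound on `S \ U`
holds on `S`. -/
theorem max_closed {g : ℂ → ℂ} {U S : Set ℂ} (hU : IsOpen U) (hb : Bornology.IsBounded U)
    (hS : IsClosed S) (hUS : U ⊆ S) (hg : DifferentiableOn ℂ g S) {C : ℝ}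
    (hC : ∀ z ∈ S, z ∉ U → ‖g z‖ ≤ C) {z : ℂ} (hz : z ∈ S) : ‖g z‖ ≤ C := by
  by_cases hzU : z ∈ U
  · have hcl : closure U ⊆ S := closure_minimal hUS hS
    refine norm_le_of_forall_mem_frontier_norm_le hb
      ⟨hg.mono hUS, hg.continuousOn.mono hcl⟩ (fun w hw => ?_) (subset_closure hzU)
    rw [hU.frontier_eq] at hw
    exact hC w (hcl hw.1) hw.2
  · exact hC z hz hzU

theorem normSq_blaschke (p p1 : ℂ) :
    ‖p + (starRingEnd ℂ) p1‖ ^ 2 = ‖p - p1‖ ^ 2 + 4 * p1.re * p.re := by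
  rw [Complex.sq_norm, Complex.sq_norm, normSq_apply, normSq_apply]
  simp only [add_re, add_im, sub_re, sub_im, conj_re, conj_im]
  ring

/-- (Prop). -/
theorem prop {f : ℂ → ℂ} {R M r : ℝ} {p1 : ℂ} (n : ℕ)
    (hf : DifferentiableOn ℂ f {p | 0 ≤ p.re ∧ ‖p‖ ≤ R})
    (hM : ∀ p : ℂ, 0 ≤ p.re → ‖p‖ ≤ R → ‖f p‖ ≤ M)
    (h1 : 0 < p1.re) (hR : ‖p1‖ < R) (hr : 0 < r)
    (hc : ∀ p : ℂ, 0 ≤ p.re → ‖p‖ ≤ R → ‖p - p1‖ = r →
      ‖f p‖ ≤ M * ‖(p - p1) / (p + (starRingEnd ℂ) p1)‖ ^ n)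
    {p : ℂ} (hp0 : 0 ≤ p.re) (hpR : ‖p‖ ≤ R) (hpr : r ≤ ‖p - p1‖) :
    ‖f p‖ ≤ M * ‖(p - p1) / (p + (starRingEnd ℂ) p1)‖ ^ n *
      Real.exp (2 * n * p1.re * p.re / (R - ‖p1‖) ^ 2) := by
  set ε : ℝ := 2 * n * p1.re / (R - ‖p1‖) ^ 2 with hε
  have hd : 0 < R - ‖p1‖ := by linarith
  have hε0 : 0 ≤ ε := by positivity
  have hM0 : 0 ≤ M := (norm_nonneg _).trans (hM p hp0 hpR)
  let g : ℂ → ℂ := fun z => f z * ((z + (starRingEnd ℂ) p1) / (z - p1)) ^ n * cexp (-(ε * z))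
  let S : Set ℂ := {z | 0 ≤ z.re ∧ ‖z‖ ≤ R ∧ r ≤ ‖z - p1‖}
  let U : Set ℂ := {z | 0 < z.re ∧ ‖z‖ < R ∧ r < ‖z - p1‖}
  have hU : IsOpen U :=
    (isOpen_lt continuous_const continuous_re).inter
      ((isOpen_lt continuous_norm continuous_const).inter
        (isOpen_lt continuous_const (continuous_id.sub continuous_const).norm))
  have hS : IsClosed S :=
    (isClosed_le continuous_const continuous_re).inter
      ((isClosed_le continuous_norm continuous_const).inter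
        (isClosed_le continuous_const (continuous_id.sub continuous_const).norm))
  have hb : Bornology.IsBounded U :=
    (Metric.isBounded_ball (x := (0 : ℂ)) (r := R)).subset fun z hz => by simpa using hz.2.1
  have hne : ∀ z ∈ S, z - p1 ≠ 0 := fun z hz h0 => by
    have := hz.2.2
    rw [h0, norm_zero] at this
    linarith
  have hne' : ∀ z ∈ S, z + (starRingEnd ℂ) p1 ≠ 0 := fun z hz h0 => by
    have := congrArg Complex.re h0
    simp only [add_re, conj_re, zero_re] at this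
    linarith [hz.1]
  have hg : DifferentiableOn ℂ g S := by
    refine ((hf.mono fun z hz => ⟨hz.1, hz.2.1⟩).mul (DifferentiableOn.pow ?_ n)).mul ?_
    · exact DifferentiableOn.div (by fun_prop) (by fun_prop) hne
    · fun_prop
  have hgn : ∀ z, ‖g z‖ = ‖f z‖ * (‖z + (starRingEnd ℂ) p1‖ / ‖z - p1‖) ^ n *
      Real.exp (-(ε * z.re)) := fun z => by
    simp only [g, norm_mul, norm_pow, norm_div, Complex.norm_exp]
    simp
  have key : ‖g p‖ ≤ M := by
    refine max_closed hU hb hS (fun z hz => ⟨hz.1.le, hz.2.1.le, hz.2.2.le⟩) hg ?_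
      (show p ∈ S from ⟨hp0, hpR, hpr⟩)
    intro z hz hzU
    have hz1 : 0 < ‖z - p1‖ := norm_pos_iff.mpr (hne z hz)
    have hz2 : 0 < ‖z + (starRingEnd ℂ) p1‖ := norm_pos_iff.mpr (hne' z hz)
    have hfz := hM z hz.1 hz.2.1
    have hsq := normSq_blaschke z p1
    rw [hgn]
    by_cases ha : z.re = 0
    · have : ‖z + (starRingEnd ℂ) p1‖ = ‖z - p1‖ := by
        rw [ha] at hsq
        exact (pow_left_inj₀ hz2.le hz1.le two_ne_zero).mp (by linarith)
      rw [this, div_self hz1.ne', ha]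
      simpa using hfz
    by_cases hb' : ‖z‖ = R
    · have hlow : R - ‖p1‖ ≤ ‖z - p1‖ := by
        have := norm_sub_norm_le z p1
        linarith
      have hq : ‖z + (starRingEnd ℂ) p1‖ / ‖z - p1‖ ≤
          Real.exp (2 * p1.re * z.re / (R - ‖p1‖) ^ 2) := by
        refine (pow_le_pow_iff_left₀ (by positivity) (by positivity) two_ne_zero).mp ?_
        rw [← Real.exp_nat_mul, div_pow, hsq, add_div, div_self (by positivity)]
        refine le_trans ?_ (Real.add_one_le_exp _)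
        have h3 : 4 * p1.re * z.re / ‖z - p1‖ ^ 2 ≤ 4 * p1.re * z.re / (R - ‖p1‖) ^ 2 :=
          div_le_div_of_nonneg_left (by have := hz.1; positivity) (by positivity)
            (pow_le_pow_left₀ hd.le hlow 2)
        have h4 : ((2 : ℕ) : ℝ) * (2 * p1.re * z.re / (R - ‖p1‖) ^ 2) =
            4 * p1.re * z.re / (R - ‖p1‖) ^ 2 := by push_cast; ring
        linarith
      have hq' : (‖z + (starRingEnd ℂ) p1‖ / ‖z - p1‖) ^ n ≤ Real.exp (ε * z.re) := by
        refine (pow_le_pow_left₀ (by positivity) hq n).trans_eq ?_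
        rw [← Real.exp_nat_mul, hε]
        congr 1
        ring
      calc ‖f z‖ * (‖z + (starRingEnd ℂ) p1‖ / ‖z - p1‖) ^ n * Real.exp (-(ε * z.re))
          ≤ M * Real.exp (ε * z.re) * Real.exp (-(ε * z.re)) := by gcongr
        _ = M := by rw [mul_assoc, ← Real.exp_add]; simp
    · have hc' : ‖z - p1‖ = r := by
        by_contra h
        exact hzU ⟨lt_of_le_of_ne hz.1 (Ne.symm ha), lt_of_le_of_ne hz.2.1 hb',
          lt_of_le_of_ne hz.2.2 (Ne.symm h)⟩
      have h5 := hc z hz.1 hz.2.1 hc'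
      rw [norm_div] at h5
      have h6 : Real.exp (-(ε * z.re)) ≤ 1 :=
        Real.exp_le_one_iff.mpr (by have := hz.1; have := mul_nonneg hε0 hz.1; linarith)
      calc ‖f z‖ * (‖z + (starRingEnd ℂ) p1‖ / ‖z - p1‖) ^ n * Real.exp (-(ε * z.re))
          ≤ M * (‖z - p1‖ / ‖z + (starRingEnd ℂ) p1‖) ^ n *
            (‖z + (starRingEnd ℂ) p1‖ / ‖z - p1‖) ^ n * 1 := by gcongr
        _ = M := by
          rw [mul_one, mul_assoc, ← mul_pow]
          have : ‖z - p1‖ / ‖z + (starRingEnd ℂ) p1‖ * (‖z + (starRingEnd ℂ) p1‖ / ‖z - p1‖) = 1 := by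
            field_simp
          rw [this, one_pow, mul_one]
  have hpS : p ∈ S := ⟨hp0, hpR, hpr⟩
  have hz1 : 0 < ‖p - p1‖ := norm_pos_iff.mpr (hne p hpS)
  have hz2 : 0 < ‖p + (starRingEnd ℂ) p1‖ := norm_pos_iff.mpr (hne' p hpS)
  rw [hgn] at key
  have e1 : 2 * n * p1.re * p.re / (R - ‖p1‖) ^ 2 = ε * p.re := by rw [hε]; ring
  rw [e1, norm_div]
  have e2 : ‖f p‖ = ‖f p‖ * (‖p + (starRingEnd ℂ) p1‖ / ‖p - p1‖) ^ n * Real.exp (-(ε * p.re)) *
      ((‖p - p1‖ / ‖p + (starRingEnd ℂ) p1‖) ^ n * Real.exp (ε * p.re)) := by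
    have a1 : (‖p + (starRingEnd ℂ) p1‖ / ‖p - p1‖) ^ n *
        (‖p - p1‖ / ‖p + (starRingEnd ℂ) p1‖) ^ n = 1 := by
      rw [← mul_pow]
      have : ‖p + (starRingEnd ℂ) p1‖ / ‖p - p1‖ * (‖p - p1‖ / ‖p + (starRingEnd ℂ) p1‖) = 1 := by
        field_simp
      rw [this, one_pow]
    have a2 : Real.exp (-(ε * p.re)) * Real.exp (ε * p.re) = 1 := by
      rw [← Real.exp_add]; simp
    calc ‖f p‖ = ‖f p‖ * ((‖p + (starRingEnd ℂ) p1‖ / ‖p - p1‖) ^ n *
        (‖p - p1‖ / ‖p + (starRingEnd ℂ) p1‖) ^ n) *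
        (Real.exp (-(ε * p.re)) * Real.exp (ε * p.re)) := by rw [a1, a2]; ring
      _ = _ := by ring
  rw [e2, mul_assoc M]
  exact mul_le_mul_of_nonneg_right key (by positivity)

end Pool.Agent.P.MP_f981b0_an.ISP9
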