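import Pool.Agent.P.MP_f981b0_an.ISP9.Prop

/-!
# Maximum principle in a long rectangle with an explicit comparator
-/

set_option autoImplicit false

namespace Pool.Agent.P.MP_f981b0_an.ISP9

open Complex Set

theorem re_cubic (p : ℂ) : (p - p ^ 3 / 3).re = p.re * (1 + p.im ^ 2 - p.re ^ 2 / 3) := by
  have h : p - p ^ 3 / 3 = p - (1 / 3 : ℝ) * (p * p * p) := by push_cast; ring
  rw [h]
  simp only [sub_re, mul_re, mul_im, ofReal_re, ofReal_im]
  ring

theorem re_cos (p : ℂ) : (Complex.cos p).re = Real.cos p.re * Real.cosh p.im := by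
  rw [Complex.cos_eq, ← ofReal_cos, ← ofReal_cosh, ← ofReal_sin, ← ofReal_sinh]
  simp only [sub_re, mul_re, mul_im, ofReal_re, ofReal_im, I_re, I_im]
  ring

/-- The rectangle `0 ≤ x ≤ 1/8`, `|y| ≤ 4 a`. -/
theorem rect {g : ℂ → ℂ} {Λ C E a : ℝ} (hC : 0 ≤ C) (hE : 4 * E ≤ Real.exp a)
    (hg : DifferentiableOn ℂ g {p | 0 ≤ p.re ∧ p.re ≤ 1 / 8 ∧ |p.im| ≤ 4 * a})
    (h0 : ∀ p : ℂ, p.re = 0 → |p.im| ≤ 4 * a → ‖g p‖ ≤ Real.exp Λ)
    (h1 : ∀ p : ℂ, p.re = 1 / 8 → |p.im| ≤ 4 * a → ‖g p‖ ≤ Real.exp (Λ + C * (1 + p.im ^ 2)))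
    (h2 : ∀ p : ℂ, 0 ≤ p.re → p.re ≤ 1 / 8 → |p.im| = 4 * a → ‖g p‖ ≤ Real.exp (Λ + E))
    {p : ℂ} (hp0 : 0 ≤ p.re) (hp1 : p.re ≤ 1 / 8) (hp2 : |p.im| ≤ 3 * a) :
    ‖g p‖ ≤ Real.exp (Λ + 1 + 9 * C * p.re * (1 + p.im ^ 2)) := by
  have ha : 0 ≤ a := by have := abs_nonneg p.im; linarith
  let φ : ℂ → ℂ := fun z => ((9 * C : ℝ) : ℂ) * (z - z ^ 3 / 3) +
    ((Real.exp (-(3 * a)) : ℝ) : ℂ) * Complex.cos z
  have hφ : ∀ z, (φ z).re = 9 * C * (z.re * (1 + z.im ^ 2 - z.re ^ 2 / 3)) +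
      Real.exp (-(3 * a)) * (Real.cos z.re * Real.cosh z.im) := fun z => by
    simp only [φ, add_re, re_ofReal_mul, re_cubic, re_cos]
  let k : ℂ → ℂ := fun z => g z * cexp (-φ z)
  let S : Set ℂ := {z | 0 ≤ z.re ∧ z.re ≤ 1 / 8 ∧ |z.im| ≤ 4 * a}
  let U : Set ℂ := {z | 0 < z.re ∧ z.re < 1 / 8 ∧ |z.im| < 4 * a}
  have hU : IsOpen U :=
    (isOpen_lt continuous_const continuous_re).inter
      ((isOpen_lt continuous_re continuous_const).inter
        (isOpen_lt continuous_im.abs continuous_const))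
  have hS : IsClosed S :=
    (isClosed_le continuous_const continuous_re).inter
      ((isClosed_le continuous_re continuous_const).inter
        (isClosed_le continuous_im.abs continuous_const))
  have hb : Bornology.IsBounded U :=
    (Metric.isBounded_closedBall (x := (0 : ℂ)) (r := 1 / 8 + 4 * a)).subset fun z hz => by
      have h := Complex.norm_le_abs_re_add_abs_im z
      have h' : |z.re| ≤ 1 / 8 := abs_le.mpr ⟨by linarith [hz.1], hz.2.1.le⟩
      rw [mem_closedBall_zero_iff]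
      linarith [hz.2.2]
  have hk : DifferentiableOn ℂ k S := hg.mul (by simp only [φ]; fun_prop)
  have hkn : ∀ z, ‖k z‖ = ‖g z‖ * Real.exp (-(φ z).re) := fun z => by
    simp only [k, norm_mul, Complex.norm_exp, neg_re]
  have hcos : ∀ z ∈ S, 1 / 2 ≤ Real.cos z.re := fun z hz => by
    have := Real.one_sub_sq_div_two_le_cos (x := z.re)
    nlinarith [hz.1, hz.2.1]
  have hA : ∀ z ∈ S, 0 ≤ 9 * C * (z.re * (1 + z.im ^ 2 - z.re ^ 2 / 3)) := fun z hz => by
    have h3 : 0 ≤ 1 + z.im ^ 2 - z.re ^ 2 / 3 := by nlinarith [hz.1, hz.2.1, sq_nonneg z.im]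
    have := hz.1
    positivity
  have hB : ∀ z ∈ S, 0 ≤ Real.exp (-(3 * a)) * (Real.cos z.re * Real.cosh z.im) := fun z hz => by
    have := hcos z hz
    have := Real.cosh_pos z.im
    positivity
  have red : ∀ z, ∀ t : ℝ, ‖g z‖ ≤ Real.exp (Λ + t) → t ≤ (φ z).re → ‖k z‖ ≤ Real.exp Λ := by
    intro z t h ht
    rw [hkn]
    calc ‖g z‖ * Real.exp (-(φ z).re) ≤ Real.exp (Λ + t) * Real.exp (-(φ z).re) := by gcongr
      _ ≤ Real.exp Λ := by
        rw [← Real.exp_add]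
        exact Real.exp_le_exp.mpr (by linarith)
  have hpS : p ∈ S := ⟨hp0, hp1, by linarith⟩
  have key : ‖k p‖ ≤ Real.exp Λ := by
    refine max_closed hU hb hS (fun z hz => ⟨hz.1.le, hz.2.1.le, hz.2.2.le⟩) hk ?_ hpS
    intro z hz hzU
    by_cases c0 : z.re = 0
    · refine red z 0 (by simpa using h0 z c0 hz.2.2) ?_
      rw [hφ]
      linarith [hA z hz, hB z hz]
    by_cases c1 : z.re = 1 / 8
    · refine red z _ (h1 z c1 hz.2.2) ?_
      rw [hφ]
      have : C * (1 + z.im ^ 2) ≤ 9 * C * (z.re * (1 + z.im ^ 2 - z.re ^ 2 / 3)) := by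
        rw [c1]
        nlinarith [sq_nonneg z.im, mul_nonneg hC (sq_nonneg z.im)]
      linarith [hB z hz]
    · have c2 : |z.im| = 4 * a := by
        by_contra h
        exact hzU ⟨lt_of_le_of_ne hz.1 (Ne.symm c0), lt_of_le_of_ne hz.2.1 c1,
          lt_of_le_of_ne hz.2.2 h⟩
      refine red z _ (h2 z hz.1 hz.2.1 c2) ?_
      rw [hφ]
      have e1 : Real.exp (4 * a) / 2 ≤ Real.cosh z.im := by
        rw [← Real.cosh_abs, c2, Real.cosh_eq]
        have := Real.exp_pos (-(4 * a))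
        linarith
      have e2 : Real.exp (-(3 * a)) * Real.exp (4 * a) = Real.exp a := by
        rw [← Real.exp_add]; congr 1; ring
      have e3 : Real.exp (-(3 * a)) * (1 / 2 * (Real.exp (4 * a) / 2)) ≤
          Real.exp (-(3 * a)) * (Real.cos z.re * Real.cosh z.im) := by
        have := hcos z hz
        gcongr
      nlinarith [hA z hz]
  have e4 : Real.exp (-(3 * a)) * (Real.cos p.re * Real.cosh p.im) ≤ 1 := by
    have c1 : Real.cosh p.im ≤ Real.exp (3 * a) := by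
      rw [← Real.cosh_abs, Real.cosh_eq]
      have d1 : Real.exp |p.im| ≤ Real.exp (3 * a) := Real.exp_le_exp.mpr hp2
      have d2 : Real.exp (-|p.im|) ≤ Real.exp (3 * a) :=
        Real.exp_le_exp.mpr (by linarith [abs_nonneg p.im])
      linarith
    have c2 : Real.cos p.re * Real.cosh p.im ≤ 1 * Real.exp (3 * a) := by
      have := Real.cos_le_one p.re
      have := Real.cosh_pos p.im
      gcongr
    calc _ ≤ Real.exp (-(3 * a)) * (1 * Real.exp (3 * a)) := by gcongr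
      _ = 1 := by rw [one_mul, ← Real.exp_add]; simp
  have e5 : 9 * C * (p.re * (1 + p.im ^ 2 - p.re ^ 2 / 3)) ≤ 9 * C * p.re * (1 + p.im ^ 2) := by
    have : 0 ≤ C * (p.re * p.re ^ 2) := by positivity
    nlinarith
  rw [hkn] at key
  calc ‖g p‖ = ‖g p‖ * Real.exp (-(φ p).re) * Real.exp ((φ p).re) := by
        rw [mul_assoc, ← Real.exp_add]; simp
    _ ≤ Real.exp Λ * Real.exp ((φ p).re) := by gcongr
    _ ≤ _ := by
      rw [← Real.exp_add]
      refine Real.exp_le_exp.mpr ?_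
      rw [hφ]
      linarith

end Pool.Agent.P.MP_f981b0_an.ISP9
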